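import Pool.Agent.H29.ScrewI

/-!
# MP_267b52_gt: property (ii) does not imply property (i)

Let `N = (ℂ ∖ 0) × ℂ` (an open subset of `ℝ⁴`) with the flat metric
`|dz / z|² + |dw - i √2 w Im (dz / z)|²`. It is isometric to `ℝ × (ℝ × ℂ) / ℤ`, where the generator
of `ℤ` acts by a screw motion with irrational rotation angle. Every set `V` with
`{|z| = |w| = 1} ⊆ V ⊆ {w ≠ 0}` has property (ii) but carries no strictly convex function.

* (ii): for a harmonic map `φ` from a closed manifold, `log |z ∘ φ|` is harmonic and `|w ∘ φ|²` is
  subharmonic, so both are constant, and `φ` runs in a leaf `t ↦ (e^{it} z, e^{i√2t} w)`. Away from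
  `w = 0` the leaves are injectively immersed lines, so `φ` is a harmonic function, hence constant.
* not (i): the leaves are geodesics, and the torus `|z| = |w| = 1` is a union of leaves; at a point
  of the torus where a function attains its maximum over the torus, its Hessian is not positive in
  the direction of the leaf.
-/

open scoped Manifold ContDiff Topology Bundle
open Set Filter Metric Complex Pool.Agent.H29

namespace Pool.Agent.Results.MP_267b52_gt.Disproof

noncomputable section

lemma isConnected_Ω4 : IsConnected (Ω4 : Set (Rn 4)) := by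
  have h1 : IsConnected ({0}ᶜ : Set ℂ) :=
    isConnected_compl_singleton_of_one_lt_rank (by rw [Complex.rank_real_complex]; norm_num) 0
  have h2 : IsConnected (({0}ᶜ : Set ℂ) ×ˢ (univ : Set ℂ)) := h1.prod isConnected_univ
  have h3 : Continuous (fun p : ℂ × ℂ => mk4 p.1 p.2) := by
    unfold mk4
    fun_prop
  have h4 := h2.image _ h3.continuousOn
  convert h4 using 1
  ext P
  constructor
  · intro hP
    exact ⟨(zL P, wL P), ⟨hP, trivial⟩, mk4_self P⟩
  · rintro ⟨⟨z, w⟩, ⟨hz, -⟩, rfl⟩
    have h5 : zL (mk4 z w) ≠ 0 := by rw [zL_mk4]; exact hz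
    exact h5

/-- **Property (ii) does not imply property (i).** There are a connected Riemannian manifold
`(N, h)` of dimension `4`, a compact set `V₀` and an open set `V₁ ⊇ V₀` in `N` such that *every* set
`V` with `V₀ ⊆ V ⊆ V₁` (in particular the compact set `V₀` and the open set `V₁`) has property
(ii): it contains no image of a nonconstant harmonic map from a closed Riemannian manifold; but `V`
carries no strictly convex function. -/
theorem result.{u} :
    ∃ (N : Type) (_ : TopologicalSpace N) (_ : T2Space N) (_ : SecondCountableTopology N)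
      (_ : ConnectedSpace N) (_ : ChartedSpace (Rn 4) N) (_ : IsManifold (𝓡 4) ∞ N)
      (h : RMetric 4 N) (V₀ V₁ : Set N),
      IsCompact V₀ ∧ IsOpen V₁ ∧ V₀ ⊆ V₁ ∧
        ∀ V : Set N, V₀ ⊆ V → V ⊆ V₁ → PropertyII.{u} h V ∧ ¬ PropertyI h V := by
  have hconn : ConnectedSpace Ω4 := isConnected_iff_connectedSpace.mp isConnected_Ω4
  refine ⟨Ω4, inferInstance, inferInstance, inferInstance, hconn, inferInstance, inferInstance,
    hN, torus, {p | wL p.1 ≠ 0}, torus_isCompact, ?_, ?_, ?_⟩
  · exact isOpen_ne_fun (wL.continuous.comp continuous_subtype_val) continuous_const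
  · rintro p ⟨-, h2⟩ h0
    rw [h0] at h2
    simp at h2
  · intro V h0 h1
    refine ⟨?_, not_strictlyConvex h0⟩
    intro m _ M _ _ _ _ _ _ g φ hφ hran x y
    exact harmonic_const hφ (fun p => h1 (hran ⟨p, rfl⟩)) x y

end

end Pool.Agent.Results.MP_267b52_gt.Disproof
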